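import Mathlib

set_option autoImplicit false

namespace Q268.ZS

/-- evaluate the argument before passing it on -/
def force (n : ℕ) (f : ℕ → Bool) : Bool :=
  Nat.rec (motive := fun _ => Bool) (f 0) (fun k _ => f (Nat.succ k)) n

/-- swap the neighbouring blocks of `k` bits, `M` the mask of the lower blocks -/
def stp (M k m : ℕ) : ℕ := Nat.lor (Nat.shiftLeft (Nat.land m M) k) (Nat.land (Nat.shiftRight m k) M)

def rot1 (m : ℕ) : ℕ :=
  Nat.lor (Nat.land (Nat.shiftRight m 16) 0xFFFFFFFF) (Nat.shiftLeft (Nat.land m 0xFFFF) 32)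

/-- loop over `g = 48 - r, …, 47` -/
def loop (m : ℕ) (f : ℕ → Bool) (r : ℕ) : Bool :=
  Nat.rec (motive := fun _ => Bool) true
    (fun r ih => cond (cond (Nat.beq (Nat.land (Nat.shiftRight m (Nat.sub 47 r)) 1) 1) true
      (f (Nat.sub 47 r))) ih false) r

def xs (M b a m : ℕ) (k : ℕ → Bool) : Bool :=
  cond (Nat.beq (Nat.land a b) b) (force (stp M b m) k) (k m)

/-- `xr m a k`: apply `k` to the translate of `m` by `a < 16` -/
def xr (m a : ℕ) (k : ℕ → Bool) : Bool :=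
  xs 0x555555555555 1 a m fun m => xs 0x333333333333 2 a m fun m =>
    xs 0x0F0F0F0F0F0F 4 a m fun m => xs 0x00FF00FF00FF 8 a m k

def rot (m c : ℕ) (k : ℕ → Bool) : Bool :=
  cond (Nat.beq c 0) (k m) (cond (Nat.beq c 1) (force (rot1 m) k) (force (rot1 (rot1 m)) k))

/-- one search step -/
def dfs (k : ℕ) : ℕ → ℕ → Bool :=
  Nat.rec (motive := fun _ => ℕ → ℕ → Bool) (fun _ _ => false)
    (fun _ ih s m => cond (Nat.beq m 0xFFFFFFFFFFFF) true
      (loop m (fun g => xr m (Nat.land g 15) fun m1 => rot m1 (Nat.shiftRight g 4) fun m2 =>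
        force (Nat.lor m m2) fun m3 => ih g m3) (Nat.sub 48 s))) k

/-- the mask of the graph of `a ↦ - ∑ a_j d_j` -/
def base (d0 d1 d2 d3 : ℕ) : ℕ :=
  (List.range 16).foldl (fun m a =>
    m ||| (1 <<< (16 * ((12 - (a % 2) * d0 - (a / 2 % 2) * d1 - (a / 4 % 2) * d2 - (a / 8 % 2) * d3) % 3) + a))) 0

set_option maxRecDepth 100000 in
theorem search : ∀ d0 < 3, ∀ d1 < 3, ∀ d2 < 3, ∀ d3 < 3,
    force (base d0 d1 d2 d3) (fun m => dfs 5 0 m) = true := by decide +kernel

end Q268.ZS
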