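import Pool.Agent.Q268.ZS.Sem

set_option autoImplicit false

namespace Q268.ZS

/-- the group `C_2^4 × C_3` -/
abbrev A := (Fin 4 → ZMod 2) × ZMod 3

def enc (x : A) : ℕ :=
  (x.1 0).val + 2 * (x.1 1).val + 4 * (x.1 2).val + 8 * (x.1 3).val + 16 * x.2.val

theorem enc_lt (x : A) : enc x < 48 := by
  unfold enc
  have h0 := ZMod.val_lt (x.1 0)
  have h1 := ZMod.val_lt (x.1 1)
  have h2 := ZMod.val_lt (x.1 2)
  have h3 := ZMod.val_lt (x.1 3)
  have h4 := ZMod.val_lt x.2
  omega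

theorem enc_add (x y : A) : enc (x + y) = pl (enc x) (enc y) := by
  obtain ⟨x, a⟩ := x
  obtain ⟨y, b⟩ := y
  unfold enc
  simp only [Prod.fst_add, Pi.add_apply, Prod.snd_add]
  generalize x 0 = x0
  generalize x 1 = x1
  generalize x 2 = x2
  generalize x 3 = x3
  generalize y 0 = y0
  generalize y 1 = y1
  generalize y 2 = y2
  generalize y 3 = y3
  clear x y
  revert x0 x1 x2 x3 a y0 y1 y2 y3 b
  decide +kernel

/-- the graph of `a ↦ - ∑ a_j d_j` -/
def B (d : Fin 4 → ZMod 3) : Set A := {x | x.2 + ∑ j, (if x.1 j = 1 then d j else 0) = 0}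

theorem base_key : ∀ (x0 x1 x2 x3 : ZMod 2) (a y0 y1 y2 y3 : ZMod 3),
    (base y0.val y1.val y2.val y3.val).testBit
      (x0.val + 2 * x1.val + 4 * x2.val + 8 * x3.val + 16 * a.val) = true ↔
    a + ((((if x0 = 1 then y0 else 0) + if x1 = 1 then y1 else 0) + if x2 = 1 then y2 else 0) +
            if x3 = 1 then y3 else 0) = 0 := by
  decide +kernel

theorem base_spec (d : Fin 4 → ZMod 3) (x : A) :
    (base (d 0).val (d 1).val (d 2).val (d 3).val).testBit (enc x) = true ↔ x ∈ B d := by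
  have h := base_key (x.1 0) (x.1 1) (x.1 2) (x.1 3) x.2 (d 0) (d 1) (d 2) (d 3)
  unfold enc B
  rw [h, Set.mem_ofPred_eq, Fin.sum_univ_four]

theorem core_mono (k : ℕ) : ∀ (s m : ℕ) (X : Set A) (f : Fin k → A), dfs k s m = true → s ≤ 48 →
    (∀ x, m.testBit (enc x) = true ↔ x ∈ X) → (∀ i, s ≤ enc (f i)) →
    (∀ i j, i ≤ j → enc (f i) ≤ enc (f j)) → ∃ I : Finset (Fin k), I.Nonempty ∧ ∑ i ∈ I, f i ∈ X := by
  induction k with
  | zero =>
    intro s m X f h
    exact absurd h (by simp [dfs])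
  | succ k ih =>
    intro s m X f h hs hX hf hm
    rcases dfs_spec k s m h hs (enc (f 0)) (hf 0) (enc_lt _) with h1 | h1
    · refine ⟨{0}, by simp, ?_⟩
      rw [Finset.sum_singleton]
      exact (hX _).mp h1
    · obtain ⟨I, hI, hs⟩ := ih (enc (f 0)) _ (X ∪ {x | x + f 0 ∈ X}) (fun i => f i.succ) h1 (enc_lt _).le
        (fun x => by
          rw [Nat.testBit_or, testBit_trN _ _ _ (enc_lt _) (enc_lt _), ← enc_add, Bool.or_eq_true, hX, hX]
          rfl)
        (fun i => hm 0 i.succ (Fin.zero_le _)) (fun i j hij => hm _ _ (Fin.succ_le_succ_iff.mpr hij))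
      rcases hs with hs | hs
      · refine ⟨I.map (Fin.succEmb k), by simpa using hI, ?_⟩
        rw [Finset.sum_map]
        exact hs
      · refine ⟨insert 0 (I.map (Fin.succEmb k)), by simp, ?_⟩
        rw [Finset.sum_insert (by simp), Finset.sum_map, add_comm]
        exact hs

theorem core (d : Fin 4 → ZMod 3) (f : Fin 5 → A) :
    ∃ I : Finset (Fin 5), I.Nonempty ∧ ∑ i ∈ I, f i ∈ B d := by
  have h := search (d 0).val (ZMod.val_lt _) (d 1).val (ZMod.val_lt _) (d 2).val (ZMod.val_lt _)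
    (d 3).val (ZMod.val_lt _)
  rw [force_eq] at h
  obtain ⟨I, hI, hs⟩ := core_mono 5 0 _ (B d) (f ∘ Tuple.sort (enc ∘ f)) h (by norm_num) (base_spec d)
    (fun _ => Nat.zero_le _) (fun i j hij => Tuple.monotone_sort (enc ∘ f) hij)
  refine ⟨I.map (Tuple.sort (enc ∘ f)).toEmbedding, by simpa using hI, ?_⟩
  rw [Finset.sum_map]
  exact hs

end Q268.ZS
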