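import Pool.Agent.Q268.ZS.Core

set_option autoImplicit false

namespace Q268.ZS

theorem zmod2_cases (t : ZMod 2) : t = 0 ∨ t = 1 := by revert t; decide

theorem zmod2_add_self (t : ZMod 2) : t + t = 0 := by revert t; decide

/-- every sequence of length nine over `C_2^4 × C_3` has a nonempty zero-sum subsequence -/
theorem nine (s : Fin 9 → A) : ∃ I : Finset (Fin 9), I.Nonempty ∧ ∑ i ∈ I, s i = 0 := by
  classical
  obtain ⟨κ, a, ha, hspan, hli⟩ := exists_linearIndependent' (ZMod 2) (fun i => (s i).1)
  have : Fintype κ := Fintype.ofInjective a ha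
  have hcard : Fintype.card κ ≤ Fintype.card (Fin 4) := by
    have := hli.fintype_card_le_finrank
    simpa using this
  obtain ⟨e⟩ := Function.Embedding.nonempty_of_card_le hcard
  have hcard4 : Fintype.card κ ≤ 4 := by simpa using hcard
  set R : Finset (Fin 9) := Finset.univ \ Finset.univ.map ⟨a, ha⟩ with hR
  have hRc : 5 ≤ R.card := by
    have h1 := Finset.le_card_sdiff (Finset.univ.map ⟨a, ha⟩) (Finset.univ : Finset (Fin 9))
    rw [Finset.card_map, Finset.card_univ, Finset.card_univ, Fintype.card_fin, ← hR] at h1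
    omega
  set b := R.orderEmbOfCardLe hRc with hb
  have hbR : ∀ i, b i ∈ R := fun i => Finset.orderEmbOfCardLe_mem R hRc i
  have hba : ∀ i k, b i ≠ a k := by
    intro i k h
    have := hbR i
    rw [h, hR, Finset.mem_sdiff] at this
    exact this.2 (Finset.mem_map_of_mem ⟨a, ha⟩ (Finset.mem_univ k))
  have hw : ∀ i : Fin 5, ∃ w : κ → ZMod 2, ∑ k, w k • (s (a k)).1 = (s (b i)).1 := by
    intro i
    have : (s (b i)).1 ∈ Submodule.span (ZMod 2) (Set.range ((fun i => (s i).1) ∘ a)) := by
      rw [hspan]
      exact Submodule.subset_span ⟨b i, rfl⟩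
    exact (Submodule.mem_span_range_iff_exists_fun (ZMod 2)).mp this
  choose w hw using hw
  obtain ⟨I, hI, hs⟩ := core (Function.extend e (fun k => (s (a k)).2) 0)
    (fun i => (Function.extend e (w i) 0, (s (b i)).2))
  set t : κ → ZMod 2 := fun k => ∑ i ∈ I, w i k with ht
  have h2 : ∑ i ∈ I, (s (b i)).2 + ∑ k, (if t k = 1 then (s (a k)).2 else 0) = 0 := by
    have h3 : (∑ i ∈ I, (Function.extend e (w i) 0, (s (b i)).2) : A).2 +
      ∑ j, (if (∑ i ∈ I, (Function.extend e (w i) 0, (s (b i)).2) : A).1 j = 1 then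
        Function.extend e (fun k => (s (a k)).2) 0 j else 0) = 0 := hs
    rw [Prod.snd_sum, Prod.fst_sum] at h3
    refine Eq.trans ?_ h3
    congr 1
    refine Finset.sum_of_injOn e (e.injective.injOn) (fun _ _ => Finset.mem_coe.mpr (Finset.mem_univ _)) ?_ ?_
    · intro j _ hj
      have : Function.extend e (fun k => (s (a k)).2) 0 j = 0 := by
        rw [Function.extend_apply']
        · rfl
        · rintro ⟨k, hk⟩
          exact hj ⟨k, by simp, hk⟩
      rw [this, ite_self]
    · intro k _
      rw [e.injective.extend_apply, Finset.sum_apply]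
      simp only [e.injective.extend_apply, ht]
  refine ⟨I.map b.toEmbedding ∪ (Finset.univ.filter (fun k => t k = 1)).map ⟨a, ha⟩, ?_, ?_⟩
  · exact Finset.Nonempty.inl (by simpa using hI)
  · rw [Finset.sum_union]
    · rw [Finset.sum_map, Finset.sum_map]
      refine Prod.ext ?_ ?_
      · rw [Prod.fst_add, Prod.fst_sum, Prod.fst_sum, Prod.fst_zero, Finset.sum_filter]
        have e1 : ∑ i ∈ I, (s (b.toEmbedding i)).1 = ∑ k, t k • (s (a k)).1 := by
          have : ∀ i ∈ I, (s (b.toEmbedding i)).1 = ∑ k, w i k • (s (a k)).1 := fun i _ => (hw i).symm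
          rw [Finset.sum_congr rfl this, Finset.sum_comm]
          refine Finset.sum_congr rfl fun k _ => ?_
          rw [ht, ← Finset.sum_smul]
        have e2 : ∀ k, (if t k = 1 then (s (a k)).1 else 0) = t k • (s (a k)).1 := by
          intro k
          rcases zmod2_cases (t k) with h | h
          · rw [h, if_neg (by decide), zero_smul]
          · rw [h, if_pos rfl, one_smul]
        simp only [Function.Embedding.coeFn_mk, e2]
        rw [e1, ← Finset.sum_add_distrib]
        refine Finset.sum_eq_zero fun k _ => ?_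
        rw [← add_smul, zmod2_add_self, zero_smul]
      · rw [Prod.snd_add, Prod.snd_sum, Prod.snd_sum, Prod.snd_zero, Finset.sum_filter]
        exact h2
    · rw [Finset.disjoint_left]
      intro x hx1 hx2
      rw [Finset.mem_map] at hx1 hx2
      obtain ⟨i, _, hi⟩ := hx1
      obtain ⟨k, _, hk⟩ := hx2
      exact hba i k (hi.trans hk.symm)

end Q268.ZS
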