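import Pool.Agent.Q268.ZS.Comp

set_option autoImplicit false

namespace Q268.ZS

theorem force_eq (n : ℕ) (f : ℕ → Bool) : force n f = f n := by
  cases n <;> rfl

/-- translates of masks -/
def xsN (M b a m : ℕ) : ℕ := if a &&& b = b then stp M b m else m

theorem xs_eq (M b a m : ℕ) (k : ℕ → Bool) : xs M b a m k = k (xsN M b a m) := by
  unfold xs xsN
  by_cases h : a &&& b = b
  · have h' : Nat.beq (Nat.land a b) b = true := Nat.beq_eq.mpr h
    rw [h', cond_true, force_eq, if_pos h]
  · have h' : Nat.beq (Nat.land a b) b = false := by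
      rw [Bool.eq_false_iff]; intro h2; exact h (Nat.beq_eq.mp h2)
    rw [h', cond_false, if_neg h]

def xrN (m a : ℕ) : ℕ :=
  xsN 0x00FF00FF00FF 8 a (xsN 0x0F0F0F0F0F0F 4 a (xsN 0x333333333333 2 a (xsN 0x555555555555 1 a m)))

theorem xr_eq (m a : ℕ) (k : ℕ → Bool) : xr m a k = k (xrN m a) := by
  unfold xr xrN
  simp only [xs_eq]

def rotN (m c : ℕ) : ℕ := if c = 0 then m else if c = 1 then rot1 m else rot1 (rot1 m)

theorem rot_eq (m c : ℕ) (k : ℕ → Bool) : rot m c k = k (rotN m c) := by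
  unfold rot rotN
  rcases c with _ | _ | c
  · rfl
  · exact force_eq _ _
  · exact force_eq _ _

theorem testBit_stp1 (m i : ℕ) (hi : i < 48) : (stp 0x555555555555 1 m).testBit i = m.testBit (i ^^^ 1) := by
  change ((((m &&& 0x555555555555) <<< 1) ||| ((m >>> 1) &&& 0x555555555555)) : ℕ).testBit i = _
  rw [Nat.testBit_or, Nat.testBit_shiftLeft, Nat.testBit_and, Nat.testBit_and, Nat.testBit_shiftRight]
  interval_cases i <;> simp [Nat.testBit]

theorem testBit_stp2 (m i : ℕ) (hi : i < 48) : (stp 0x333333333333 2 m).testBit i = m.testBit (i ^^^ 2) := by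
  change ((((m &&& 0x333333333333) <<< 2) ||| ((m >>> 2) &&& 0x333333333333)) : ℕ).testBit i = _
  rw [Nat.testBit_or, Nat.testBit_shiftLeft, Nat.testBit_and, Nat.testBit_and, Nat.testBit_shiftRight]
  interval_cases i <;> simp [Nat.testBit]

theorem testBit_stp4 (m i : ℕ) (hi : i < 48) : (stp 0x0F0F0F0F0F0F 4 m).testBit i = m.testBit (i ^^^ 4) := by
  change ((((m &&& 0x0F0F0F0F0F0F) <<< 4) ||| ((m >>> 4) &&& 0x0F0F0F0F0F0F)) : ℕ).testBit i = _
  rw [Nat.testBit_or, Nat.testBit_shiftLeft, Nat.testBit_and, Nat.testBit_and, Nat.testBit_shiftRight]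
  interval_cases i <;> simp [Nat.testBit]

theorem testBit_stp8 (m i : ℕ) (hi : i < 48) : (stp 0x00FF00FF00FF 8 m).testBit i = m.testBit (i ^^^ 8) := by
  change ((((m &&& 0x00FF00FF00FF) <<< 8) ||| ((m >>> 8) &&& 0x00FF00FF00FF)) : ℕ).testBit i = _
  rw [Nat.testBit_or, Nat.testBit_shiftLeft, Nat.testBit_and, Nat.testBit_and, Nat.testBit_shiftRight]
  interval_cases i <;> simp [Nat.testBit]

theorem testBit_rot1 (m i : ℕ) (hi : i < 48) : (rot1 m).testBit i = m.testBit ((i + 16) % 48) := by
  change ((((m >>> 16) &&& 0xFFFFFFFF) ||| ((m &&& 0xFFFF) <<< 32)) : ℕ).testBit i = _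
  rw [Nat.testBit_or, Nat.testBit_shiftLeft, Nat.testBit_and, Nat.testBit_and, Nat.testBit_shiftRight]
  interval_cases i <;> simp [Nat.testBit]

/-- the position in the mask of the element `i + g` -/
def pl (i g : ℕ) : ℕ := ((i + 16 * (g / 16)) % 48) ^^^ (g % 16)

def trN (m g : ℕ) : ℕ := rotN (xrN m (g % 16)) (g / 16)

theorem testBit_xsN (M b a m i : ℕ) (h : ∀ i < 48, (stp M b m).testBit i = m.testBit (i ^^^ b)) (hi : i < 48) :
    (xsN M b a m).testBit i = m.testBit (i ^^^ (if a &&& b = b then b else 0)) := by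
  unfold xsN
  split_ifs
  · exact h i hi
  · simp

theorem xor_lt (i e : ℕ) (hi : i < 48) (he : e < 16) : i ^^^ e < 48 := by
  have : ∀ i < 48, ∀ e < 16, i ^^^ e < 48 := by decide +kernel
  exact this i hi e he

theorem testBit_xrN (m a i : ℕ) (ha : a < 16) (hi : i < 48) : (xrN m a).testBit i = m.testBit (i ^^^ a) := by
  unfold xrN
  have e8 : (if a &&& 8 = 8 then 8 else 0) < 16 := by split_ifs <;> norm_num
  have e4 : (if a &&& 4 = 4 then 4 else 0) < 16 := by split_ifs <;> norm_num
  have e2 : (if a &&& 2 = 2 then 2 else 0) < 16 := by split_ifs <;> norm_num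
  have l8 := xor_lt i _ hi e8
  have l4 := xor_lt _ _ l8 e4
  have l2 := xor_lt _ _ l4 e2
  rw [testBit_xsN _ _ _ _ _ (fun i hi => testBit_stp8 _ i hi) hi,
    testBit_xsN _ _ _ _ _ (fun i hi => testBit_stp4 _ i hi) l8,
    testBit_xsN _ _ _ _ _ (fun i hi => testBit_stp2 _ i hi) l4,
    testBit_xsN _ _ _ _ _ (fun i hi => testBit_stp1 _ i hi) l2]
  have : ∀ a < 16, (if a &&& 8 = 8 then 8 else 0) ^^^ ((if a &&& 4 = 4 then 4 else 0) ^^^
    ((if a &&& 2 = 2 then 2 else 0) ^^^ (if a &&& 1 = 1 then 1 else 0))) = a := by decide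
  simp only [Nat.xor_assoc, this a ha]

theorem testBit_rotN (m c i : ℕ) (hc : c < 3) (hi : i < 48) :
    (rotN m c).testBit i = m.testBit ((i + 16 * c) % 48) := by
  unfold rotN
  interval_cases c
  · simp [Nat.mod_eq_of_lt hi]
  · simp [testBit_rot1 m i hi]
  · simp only [OfNat.ofNat_ne_zero, if_false, OfNat.ofNat_ne_one]
    rw [testBit_rot1 _ i hi, testBit_rot1 _ _ (Nat.mod_lt _ (by norm_num))]
    congr 1
    omega

theorem testBit_trN (m g i : ℕ) (hg : g < 48) (hi : i < 48) : (trN m g).testBit i = m.testBit (pl i g) := by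
  unfold trN pl
  rw [testBit_rotN _ _ _ (by omega) hi, testBit_xrN _ _ _ (by omega) (Nat.mod_lt _ (by norm_num))]

theorem loop_spec (m : ℕ) (f : ℕ → Bool) (r : ℕ) (hr : r ≤ 48) (h : loop m f r = true) :
    ∀ g, 48 - r ≤ g → g < 48 → m.testBit g = true ∨ f g = true := by
  induction r with
  | zero => intro g h1 h2; omega
  | succ r ih =>
    have h' : cond (cond (Nat.beq (Nat.land (Nat.shiftRight m (Nat.sub 47 r)) 1) 1) true
      (f (Nat.sub 47 r))) (loop m f r) false = true := h
    have h1 : cond (Nat.beq (Nat.land (Nat.shiftRight m (Nat.sub 47 r)) 1) 1) true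
      (f (Nat.sub 47 r)) = true ∧ loop m f r = true := by
      cases hc : cond (Nat.beq (Nat.land (Nat.shiftRight m (Nat.sub 47 r)) 1) 1) true
        (f (Nat.sub 47 r)) with
      | false => rw [hc] at h'; exact absurd h' (by simp)
      | true => rw [hc] at h'; exact ⟨rfl, h'⟩
    intro g hg1 hg2
    by_cases hgr : g = 47 - r
    · subst hgr
      have h2 := h1.1
      cases hb : Nat.beq (Nat.land (Nat.shiftRight m (Nat.sub 47 r)) 1) 1 with
      | true =>
        left
        have hb' : (m >>> (47 - r)) &&& 1 = 1 := Nat.beq_eq.mp hb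
        rw [Nat.testBit, Nat.and_comm] 
        rw [hb']
        rfl
      | false =>
        right
        rw [hb, cond_false] at h2
        exact h2
    · exact ih (by omega) h1.2 g (by omega) hg2

theorem dfs_spec (k s m : ℕ) (h : dfs (k + 1) s m = true) (hs : s ≤ 48) :
    ∀ g, s ≤ g → g < 48 → m.testBit g = true ∨ dfs k g (m ||| trN m g) = true := by
  have h' : cond (Nat.beq m 0xFFFFFFFFFFFF) true
      (loop m (fun g => xr m (Nat.land g 15) fun m1 => rot m1 (Nat.shiftRight g 4) fun m2 =>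
        force (Nat.lor m m2) fun m3 => dfs k g m3) (Nat.sub 48 s)) = true := h
  intro g hg1 hg2
  cases hb : Nat.beq m 0xFFFFFFFFFFFF with
  | true =>
    left
    have : m = 0xFFFFFFFFFFFF := Nat.beq_eq.mp hb
    subst this
    clear h h' hb
    revert g
    have : ∀ g < 48, Nat.testBit 0xFFFFFFFFFFFF g = true := by decide +kernel
    intro g _ hg
    exact this g hg
  | false =>
    rw [hb, cond_false] at h'
    have h2 := loop_spec m _ (48 - s) (by omega) h' g (by omega) hg2
    rcases h2 with h2 | h2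
    · left; exact h2
    · right
      simp only [xr_eq, rot_eq, force_eq] at h2
      have e1 : Nat.land g 15 = g % 16 := by
        change g &&& 15 = g % 16
        exact Nat.and_two_pow_sub_one_eq_mod g 4
      have e2 : Nat.shiftRight g 4 = g / 16 := by
        change g >>> 4 = g / 16
        exact Nat.shiftRight_eq_div_pow g 4
      rw [e1, e2] at h2
      exact h2

end Q268.ZS
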